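import Pool.Agent.H39.Newt2.Base

/-!
# Project NEWTON2, module CLS: the classes `C_v(τ)`
-/

set_option autoImplicit false

namespace Pool.Newt2

open MvPolynomial Pool.Agent.H39.MonoR Pool.Agent.H75.Mono Pool.Newt

namespace CLS

section Lattice

variable {σ I : Type} [Fintype σ] [Fintype I]

/-- the homomorphism `x ↦ E (x, 0)`, extended by zero on `F` -/
def ext0 {r s : ℕ} (P : σ → Prop) [DecidablePred P]
    (E : (Fin r ⊕ Fin s → ℤ) ≃+ ({j // P j} → ℤ)) : (Fin r → ℤ) →+ (σ → ℤ) where
  toFun x := fun l => if h : P l then E (Sum.elim x 0) ⟨l, h⟩ else 0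
  map_zero' := by
    funext l
    have h0 : (Sum.elim (0 : Fin r → ℤ) (0 : Fin s → ℤ)) = 0 := by
      funext j
      rcases j with j | j <;> rfl
    by_cases h : P l
    · simp [h, h0]
    · simp [h]
  map_add' x y := by
    funext l
    have h0 : (Sum.elim (x + y) (0 : Fin s → ℤ)) = Sum.elim x 0 + Sum.elim y 0 := by
      funext j
      rcases j with j | j <;> simp
    by_cases h : P l
    · simp [h, h0, map_add]
    · simp [h]

theorem adp_of_lex (a : I → σ → ℕ) (τ : Finset I) (P : σ → Prop) [DecidablePred P]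
    (hP : ∀ j, ¬ P j → ∀ i ∈ τ, a i j = 0) {r s : ℕ}
    (E : (Fin r ⊕ Fin s → ℤ) ≃+ ({j // P j} → ℤ)) (m : I → Fin r → ℤ)
    (hr : r = rk a τ)
    (hm : ∀ i ∈ τ, E (Sum.elim (m i) 0) = fun l : {j // P j} => (a i l : ℤ)) :
    Adp a τ (ext0 P E) m := by
  refine ⟨?_, ?_, ?_, ?_⟩
  · intro x y hxy
    have h1 : E (Sum.elim x 0) = E (Sum.elim y 0) := by
      funext l
      have := congrFun hxy l.1
      have h2 : (ext0 P E x) l.1 = E (Sum.elim x 0) l := dif_pos l.2
      have h3 : (ext0 P E y) l.1 = E (Sum.elim y 0) l := dif_pos l.2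
      rw [← h2, ← h3]
      exact this
    have h4 := E.injective h1
    funext j
    exact congrFun h4 (Sum.inl j)
  · rintro n x hn ⟨y, hy⟩
    have hn' : (n : ℤ) ≠ 0 := by exact_mod_cast hn
    have h0 : ∀ l, ¬ P l → x l = 0 := by
      intro l hl
      have h1 := congrFun hy l
      have h2 : (ext0 P E y) l = 0 := dif_neg hl
      rw [h2] at h1
      exact (mul_eq_zero.mp h1.symm).resolve_left hn'
    obtain ⟨z, hz⟩ := E.surjective (fun l : {j // P j} => x l)
    have h3 : E (Sum.elim y 0) = E (fun j => (n : ℤ) * z j) := by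
      have h5 : (fun j => (n : ℤ) * z j) = (n : ℕ) • z := by
        funext j
        simp
      rw [h5, map_nsmul, hz]
      funext l
      have h6 := congrFun hy l.1
      have h7 : (ext0 P E y) l.1 = E (Sum.elim y 0) l := dif_pos l.2
      rw [h7] at h6
      rw [h6]
      simp
    have h4 := E.injective h3
    have h8 : z = Sum.elim (fun j => z (Sum.inl j)) 0 := by
      funext j
      rcases j with j | j
      · rfl
      · have h9 := congrFun h4 (Sum.inr j)
        have h10 : (0 : ℤ) = (n : ℤ) * z (Sum.inr j) := h9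
        exact (mul_eq_zero.mp h10.symm).resolve_left hn'
    refine ⟨fun j => z (Sum.inl j), ?_⟩
    funext l
    by_cases hl : P l
    · have h11 : (ext0 P E (fun j => z (Sum.inl j))) l =
        E (Sum.elim (fun j => z (Sum.inl j)) 0) ⟨l, hl⟩ := dif_pos hl
      rw [h11, ← h8, hz]
    · have h11 : (ext0 P E (fun j => z (Sum.inl j))) l = 0 := dif_neg hl
      rw [h11, h0 l hl]
  · intro i hi
    funext l
    by_cases hl : P l
    · have h11 : (ext0 P E (m i)) l = E (Sum.elim (m i) 0) ⟨l, hl⟩ := dif_pos hl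
      rw [h11, hm i hi]
    · have h11 : (ext0 P E (m i)) l = 0 := dif_neg hl
      rw [h11, hP l hl i hi]
      rfl
  · rw [Fintype.card_fin, hr]

omit [Fintype I] [Fintype σ] in
/-- the rank of the restriction -/
theorem rk_restrict (a : I → σ → ℕ) (τ : Finset I) (P : σ → Prop) [DecidablePred P]
    (hP : ∀ j, ¬ P j → ∀ i ∈ τ, a i j = 0) :
    rk (fun i (l : {j // P j}) => a i l) τ = rk a τ := by
  let f : ({j // P j} → ℚ) →ₗ[ℚ] (σ → ℚ) :=
    { toFun := fun x l => if h : P l then x ⟨l, h⟩ else 0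
      map_add' := fun x y => by
        funext l
        by_cases h : P l
        · simp [h]
        · simp [h]
      map_smul' := fun t x => by
        funext l
        by_cases h : P l
        · simp [h]
        · simp [h] }
  have hf : Function.Injective f := by
    intro x y hxy
    funext l
    have h1 := congrFun hxy l.1
    have h2 : (f x) l.1 = x l := dif_pos l.2
    have h3 : (f y) l.1 = y l := dif_pos l.2
    rw [← h2, ← h3]
    exact h1
  unfold rk
  have h4 : Submodule.span ℚ (Set.range fun (i : τ) (l : σ) => (a i l : ℚ)) =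
      (Submodule.span ℚ (Set.range fun (i : τ) (l : {j // P j}) => (a i l : ℚ))).map f := by
    rw [Submodule.map_span, ← Set.range_comp]
    congr 2
    funext i
    funext l
    show (a i l : ℚ) = if h : P l then (a i l : ℚ) else 0
    by_cases h : P l
    · rw [dif_pos h]
    · rw [dif_neg h, hP l h i i.2, Nat.cast_zero]
  rw [h4]
  exact (Submodule.equivMapOfInjective f hf _).finrank_eq

end Lattice

section Torus

variable {k : Type} [Field k] [Algebra k ℂ]

theorem TC_congr {I J : Type} [Fintype J] (c : I → k) (τ : Finset I) (m m' : I → J → ℤ) (v : k)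
    (h : ∀ i ∈ τ, m i = m' i) : TC k c τ m v = TC k c τ m' v := by
  unfold TC
  have h1 : ∀ p : (J → ℂ) × (J → ℂ),
      ∑ i ∈ τ, algebraMap k ℂ (c i) * mon p.1 (m i) =
        ∑ i ∈ τ, algebraMap k ℂ (c i) * mon p.1 (m' i) := by
    intro p
    apply Finset.sum_congr rfl
    intro i hi
    rw [h i hi]
  simp only [h1]

theorem TC_unique (hTIN : STin) (hLUN : SLun) {σ I J J' : Type} [Fintype σ] [Fintype I]
    [Fintype J] [Fintype J'] (a : I → σ → ℕ) (c : I → k) (τ : Finset I)
    (E : (J → ℤ) →+ (σ → ℤ)) (m : I → J → ℤ) (E' : (J' → ℤ) →+ (σ → ℤ)) (m' : I → J' → ℤ)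
    (h : Adp a τ E m) (h' : Adp a τ E' m') (v : k) : TC k c τ m' v = TC k c τ m v := by
  obtain ⟨e, he⟩ := hLUN σ I J J' a τ E m E' m' h h'
  rw [← hTIN k I J J' e c τ m' v]
  exact TC_congr c τ _ _ v he

end Torus

open Classical in
theorem sCls (hTIN : STin) (hTSP : STsp) (hTAF : STaf) (hTAP : STap) (hLUN : SLun) (hLEX : SLex)
    (hLAP : SLap) : SCls := by
  intro k _ _ σ I _ _ a c hc
  -- coordinates
  have hex : ∀ τ : Finset I, ∃ (r : ℕ) (E : (Fin r → ℤ) →+ (σ → ℤ)) (m : I → Fin r → ℤ),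
      Adp a τ E m := by
    intro τ
    obtain ⟨r, s, E, m, hr, _, hm⟩ := hLEX {j : σ // True} I (fun i l => a i l) τ
    refine ⟨r, ext0 (fun _ => True) E, m, ?_⟩
    apply adp_of_lex a τ (fun _ => True) (fun j hj => absurd trivial hj) E m _ hm
    rw [hr]
    exact rk_restrict a τ (fun _ => True) (fun j hj => absurd trivial hj)
  choose r E m hA using hex
  refine ⟨fun τ v => TC k c τ (m τ) v, ?_, ?_, ?_, ?_⟩
  · intro τ F v hF
    refine ⟨rk_le a τ F hF, ?_⟩
    rw [hTAF k σ I a c τ F v hF, mul_assoc]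
    have hP : ∀ j, ¬ (j ∉ F) → ∀ i ∈ τ, a i j = 0 := fun j hj => hF j (not_not.mp hj)
    obtain ⟨r', s', E', m', hr', hrs', hm'⟩ := hLEX {j // j ∉ F} I (fun i l => a i l) τ
    have hrk := rk_restrict a τ (fun j => j ∉ F) hP
    have hA' : Adp a τ (ext0 (fun j => j ∉ F) E') m' :=
      adp_of_lex a τ (fun j => j ∉ F) hP E' m' (hr'.trans hrk) hm'
    have h1 : TC k c τ (fun i (j : {j // j ∉ F}) => (a i j : ℤ)) v =
        TC k c τ (fun i => E' (Sum.elim (m' i) 0)) v :=
      TC_congr c τ _ _ v (fun i hi => (hm' i hi).symm)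
    rw [h1, hTIN k I {j // j ∉ F} (Fin r' ⊕ Fin s') E' c τ (fun i => Sum.elim (m' i) 0) v,
      hTSP k I (Fin r') (Fin s') c τ m' v, Fintype.card_fin,
      TC_unique hTIN hLUN a c τ (E τ) (m τ) (ext0 (fun j => j ∉ F) E') m' (hA τ) hA' v]
    have h4 : Fintype.card {j // j ∉ F} = Fintype.card σ - F.card := by
      rw [Fintype.card_subtype_compl (fun j => j ∈ F)]
      congr 1
      exact Fintype.card_coe F
    have h5 : s' = Fintype.card σ - F.card - rk a τ := by
      have h6 := hr'.trans hrk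
      omega
    rw [h5]
  · intro τ i l v hval
    obtain ⟨hrk, hlap⟩ := hLAP σ I (Fin (r (τ.erase i))) a τ i l hval
    obtain ⟨E', hE'⟩ := hlap (E (τ.erase i)) (m (τ.erase i)) (hA (τ.erase i))
    have h1 := (hTAP k I (Fin (r (τ.erase i))) c τ v).1 i (m (τ.erase i)) hval.1 (hc i)
    rw [TC_unique hTIN hLUN a c τ (E τ) (m τ) E' _ (hA τ) hE' v] at h1
    have h2 : Fintype.card (Fin (r (τ.erase i))) = rk a τ - 1 := by
      rw [(hA (τ.erase i)).card, hrk]
      rfl
    rw [h2] at h1
    exact h1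
  · exact ((hTAP k I (Fin (r ∅)) c ∅ 0).2 (m ∅)).1
  · have h1 := ((hTAP k I (Fin (r ∅)) c ∅ 0).2 (m ∅)).2
    have h2 : Fintype.card (Fin (r ∅)) = 0 := by
      rw [(hA ∅).card, rk_empty]
    rw [h2, pow_zero] at h1
    exact h1

end CLS

end Pool.Newt2
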